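import Pool.Agent.Q145.SZ.Stm2

set_option autoImplicit false

/-!
# Project SZ, job ENG: the engine of the circle method
-/

namespace Pool.Agent.Q190.SZE

open Finset Pool.Agent.Q145.SZ MeasureTheory
open Pool.Agent.H807R2.Dav (ee ee_add ee_zero norm_ee ee_int ee_pow ee_eq)
open scoped ComplexConjugate

/-! ## basic facts -/

theorem cont_ee (c : ℝ) : Continuous fun α : ℝ => ee (c * α) := by
  unfold ee
  fun_prop

theorem conj_ee (x : ℝ) : conj (ee x) = ee (-x) := by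
  rw [ee_eq, ee_eq, ← Complex.exp_conj, map_mul, Complex.conj_ofReal, Complex.conj_I]
  congr 1
  push_cast
  ring

theorem ee_ne_zero (x : ℝ) : ee x ≠ 0 := by
  rw [← norm_ne_zero_iff, norm_ee]; norm_num

theorem int_ee (k : ℤ) : ∫ α in Set.Icc (0 : ℝ) 1, ee (k * α) = if k = 0 then 1 else 0 := by
  rw [integral_Icc_eq_integral_Ioc, ← intervalIntegral.integral_of_le (by norm_num)]
  split_ifs with h
  · subst h
    simp [ee_zero]
  · have hc : (2 * Real.pi * Complex.I * k : ℂ) ≠ 0 := by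
      have : (k : ℂ) ≠ 0 := by exact_mod_cast h
      have hpi : (Real.pi : ℂ) ≠ 0 := by exact_mod_cast Real.pi_ne_zero
      simp [this, Complex.I_ne_zero, hpi]
    have h1 : ∀ α : ℝ, ee (k * α) = Complex.exp ((2 * Real.pi * Complex.I * k : ℂ) * α) := by
      intro α
      unfold ee
      congr 1
      push_cast
      ring
    simp_rw [h1]
    rw [integral_exp_mul_complex hc]
    have h2 : Complex.exp ((2 * Real.pi * Complex.I * k : ℂ) * (1 : ℝ)) = 1 := by
      have := ee_int k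
      unfold ee at this
      rw [← this]
      congr 1
      push_cast
      ring
    rw [h2]
    simp

theorem cont_ftr (M : ℕ) (F : ℕ → ℝ) : Continuous (ftr M F) := by
  unfold ftr
  refine continuous_finsetSum _ fun u _ => ?_
  exact continuous_const.mul (cont_ee _)

theorem cont_conj_ftr (M : ℕ) (F : ℕ → ℝ) : Continuous fun α => conj (ftr M F α) :=
  Complex.continuous_conj.comp (cont_ftr M F)

theorem int_prod (M : ℕ) (F G : ℕ → ℝ) (h : ℤ) :
    ∫ α in Set.Icc (0 : ℝ) 1, ftr M F α * conj (ftr M G α) * ee (h * α) =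
      ((∑ u ∈ range (M + 1), ∑ v ∈ range (M + 1), if (v : ℤ) = u + h then F u * G v else 0 : ℝ) : ℂ)
    := by
  have h1 : ∀ α : ℝ, ftr M F α * conj (ftr M G α) * ee (h * α) =
      ∑ u ∈ range (M + 1), ∑ v ∈ range (M + 1), ((F u * G v : ℝ) : ℂ) * ee (((u : ℤ) - v + h : ℤ) * α) := by
    intro α
    unfold ftr
    rw [map_sum, Finset.sum_mul_sum, Finset.sum_mul]
    refine Finset.sum_congr rfl fun u _ => ?_
    rw [Finset.sum_mul]
    refine Finset.sum_congr rfl fun v _ => ?_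
    rw [map_mul, conj_ee, Complex.conj_ofReal]
    have : (((u : ℤ) - v + h : ℤ) : ℝ) * α = u * α + -(v * α) + h * α := by push_cast; ring
    rw [this, ee_add, ee_add]
    push_cast
    ring
  simp_rw [h1]
  rw [integral_finsetSum]
  · rw [Complex.ofReal_sum]
    refine Finset.sum_congr rfl fun u _ => ?_
    rw [integral_finsetSum]
    · rw [Complex.ofReal_sum]
      refine Finset.sum_congr rfl fun v _ => ?_
      rw [integral_const_mul, int_ee]
      by_cases hv : (v : ℤ) = u + h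
      · rw [if_pos (by omega), if_pos hv, mul_one]
      · rw [if_neg (by omega), if_neg hv, mul_zero, Complex.ofReal_zero]
    · intro v _
      exact (continuous_const.mul (cont_ee _)).continuousOn.integrableOn_compact isCompact_Icc
  · intro u _
    refine Continuous.integrableOn_Icc ?_
    refine continuous_finsetSum _ fun v _ => continuous_const.mul (cont_ee _)

/-- Parseval -/
theorem parseval (M : ℕ) (F : ℕ → ℝ) :
    ∫ α in Set.Icc (0 : ℝ) 1, ‖ftr M F α‖ ^ 2 = ∑ u ∈ range (M + 1), F u ^ 2 := by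
  have h := int_prod M F F 0
  have h1 : ∀ α : ℝ, ftr M F α * conj (ftr M F α) * ee (((0 : ℤ) : ℝ) * α) =
      ((‖ftr M F α‖ ^ 2 : ℝ) : ℂ) := by
    intro α
    rw [Int.cast_zero, zero_mul, ee_zero, mul_one, Complex.mul_conj, Complex.normSq_eq_norm_sq]
  simp_rw [h1] at h
  rw [integral_complex_ofReal] at h
  have h2 := Complex.ofReal_injective h
  rw [h2]
  refine Finset.sum_congr rfl fun u hu => ?_
  rw [Finset.sum_eq_single u]
  · simp [pow_two]
  · intro v _ hv
    rw [if_neg]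
    intro h3
    apply hv
    omega
  · intro h3; exact absurd hu h3

/-! ## classes -/

/-- restriction to a class -/
noncomputable def cl {W : ℕ} (a : ZMod W) (F : ℕ → ℝ) (u : ℕ) : ℝ := if (u : ZMod W) = a then F u else 0

theorem cl_sub {W : ℕ} (a : ZMod W) (F G : ℕ → ℝ) : cl a (fun u => F u - G u) =
    fun u => cl a F u - cl a G u := by
  funext u
  unfold cl
  split_ifs <;> simp

theorem ftr_sub (M : ℕ) (F G : ℕ → ℝ) (α : ℝ) :
    ftr M (fun u => F u - G u) α = ftr M F α - ftr M G α := by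
  unfold ftr
  rw [← Finset.sum_sub_distrib]
  refine Finset.sum_congr rfl fun u _ => ?_
  push_cast
  ring

theorem cor_eq (M W : ℕ) (F G : ℕ → ℝ) (a : ZMod W) (h : ℤ) :
    (cor M W F G a h : ℂ) =
      ∫ α in Set.Icc (0 : ℝ) 1, ftr M (cl a F) α * conj (ftr M (cl (a + (h : ZMod W)) G) α) * ee (h * α) := by
  rw [int_prod]
  congr 1
  unfold cor
  rw [Finset.sum_filter]
  refine Finset.sum_congr rfl fun u _ => ?_
  split_ifs with hu
  · rw [Finset.sum_filter]
    refine Finset.sum_congr rfl fun v _ => ?_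
    by_cases hv : (v : ℤ) = u + h
    · rw [if_pos hv, if_pos hv]
      have : (v : ZMod W) = a + h := by
        rw [← hu]
        have := congrArg (fun z : ℤ => (z : ZMod W)) hv
        push_cast at this
        exact this
      simp [cl, hu, this]
    · rw [if_neg hv, if_neg hv]
  · symm
    refine Finset.sum_eq_zero fun v _ => ?_
    simp [cl, hu]

theorem sum_roots (W : ℕ) [NeZero W] (k : ℤ) :
    ∑ j ∈ range W, ee (k * ((j : ℝ) / W)) = if (k : ZMod W) = 0 then (W : ℂ) else 0 := by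
  have hW : (W : ℝ) ≠ 0 := by exact_mod_cast NeZero.ne W
  have h1 : ∀ j ∈ range W, ee (k * ((j : ℝ) / W)) = ee ((k : ℝ) / W) ^ j := by
    intro j _
    rw [← ee_pow]
    congr 1
    field_simp
  rw [Finset.sum_congr rfl h1]
  split_ifs with hk
  · rw [ZMod.intCast_zmod_eq_zero_iff_dvd] at hk
    obtain ⟨l, hl⟩ := hk
    have : (k : ℝ) / W = (l : ℤ) := by
      rw [hl]; push_cast; field_simp
    rw [this, ee_int]
    simp
  · have hne : ee ((k : ℝ) / W) ≠ 1 := by
      intro h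
      apply hk
      unfold ee at h
      rw [Complex.exp_eq_one_iff] at h
      obtain ⟨l, hl⟩ := h
      rw [ZMod.intCast_zmod_eq_zero_iff_dvd]
      refine ⟨l, ?_⟩
      have hpi : (2 * Real.pi * Complex.I : ℂ) ≠ 0 := Complex.two_pi_I_ne_zero
      have h2 : (((k : ℝ) / W : ℝ) : ℂ) = (l : ℂ) := by
        apply mul_left_cancel₀ hpi
        rw [hl]
        ring
      have h3 : ((k : ℝ) / W : ℝ) = (l : ℝ) := by exact_mod_cast h2
      rw [div_eq_iff hW] at h3
      have h4 : (k : ℝ) = ((W * l : ℤ) : ℝ) := by push_cast; linarith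
      exact_mod_cast h4
    have h5 : ee ((k : ℝ) / W) ^ W = 1 := by
      rw [← ee_pow]
      have : (W : ℝ) * ((k : ℝ) / W) = (k : ℤ) := by field_simp
      rw [this, ee_int]
    have h6 := geom_sum_mul (ee ((k : ℝ) / W)) W
    rw [h5, sub_self] at h6
    rcases mul_eq_zero.1 h6 with h7 | h7
    · exact h7
    · exact absurd (sub_eq_zero.1 h7) hne

theorem normsq_ftr (M : ℕ) (F : ℕ → ℝ) (α : ℝ) : ((‖ftr M F α‖ ^ 2 : ℝ) : ℂ) =
    ∑ u ∈ range (M + 1), ∑ v ∈ range (M + 1), ((F u * F v : ℝ) : ℂ) * ee (((u : ℤ) - v : ℤ) * α) := by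
  rw [← Complex.normSq_eq_norm_sq, ← Complex.mul_conj]
  unfold ftr
  rw [map_sum, Finset.sum_mul_sum]
  refine Finset.sum_congr rfl fun u _ => Finset.sum_congr rfl fun v _ => ?_
  rw [map_mul, conj_ee, Complex.conj_ofReal]
  have : (((u : ℤ) - v : ℤ) : ℝ) * α = u * α + -(v * α) := by push_cast; ring
  rw [this, ee_add]
  push_cast
  ring

theorem class_sum (M W : ℕ) [NeZero W] (F : ℕ → ℝ) (α : ℝ) :
    ∑ a : ZMod W, ‖ftr M (cl a F) α‖ ^ 2 =
      (1 / (W : ℝ)) * ∑ j ∈ range W, ‖ftr M F (α + j / W)‖ ^ 2 := by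
  have hW : (W : ℝ) ≠ 0 := by exact_mod_cast NeZero.ne W
  have hWc : (W : ℂ) ≠ 0 := by exact_mod_cast NeZero.ne W
  have hl : ((∑ a : ZMod W, ‖ftr M (cl a F) α‖ ^ 2 : ℝ) : ℂ) =
      ∑ u ∈ range (M + 1), ∑ v ∈ range (M + 1), if (u : ZMod W) = v then
        ((F u * F v : ℝ) : ℂ) * ee (((u : ℤ) - v : ℤ) * α) else 0 := by
    rw [Complex.ofReal_sum]
    simp_rw [normsq_ftr]
    rw [Finset.sum_comm]
    refine Finset.sum_congr rfl fun u _ => ?_
    rw [Finset.sum_comm]
    refine Finset.sum_congr rfl fun v _ => ?_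
    rw [Finset.sum_eq_single (u : ZMod W)]
    · unfold cl
      rw [if_pos rfl]
      by_cases h : (u : ZMod W) = v
      · rw [if_pos h, if_pos h.symm]
      · rw [if_neg h, if_neg (fun h' => h h'.symm), mul_zero, Complex.ofReal_zero, zero_mul]
    · intro b _ hb
      unfold cl
      rw [if_neg (fun h => hb h.symm), zero_mul, Complex.ofReal_zero, zero_mul]
    · intro h; exact absurd (Finset.mem_univ _) h
  have hr : ((∑ j ∈ range W, ‖ftr M F (α + j / W)‖ ^ 2 : ℝ) : ℂ) =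
      ∑ u ∈ range (M + 1), ∑ v ∈ range (M + 1), if (u : ZMod W) = v then
        (W : ℂ) * (((F u * F v : ℝ) : ℂ) * ee (((u : ℤ) - v : ℤ) * α)) else 0 := by
    rw [Complex.ofReal_sum]
    simp_rw [normsq_ftr]
    rw [Finset.sum_comm]
    refine Finset.sum_congr rfl fun u _ => ?_
    rw [Finset.sum_comm]
    refine Finset.sum_congr rfl fun v _ => ?_
    have h1 : ∀ j ∈ range W, ((F u * F v : ℝ) : ℂ) * ee (((u : ℤ) - v : ℤ) * (α + j / W)) =
        ((F u * F v : ℝ) : ℂ) * ee (((u : ℤ) - v : ℤ) * α) * ee (((u : ℤ) - v : ℤ) * ((j : ℝ) / W)) := by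
      intro j _
      rw [mul_add, ee_add]
      ring
    rw [Finset.sum_congr rfl h1, ← Finset.mul_sum, sum_roots]
    have h2 : ((((u : ℤ) - v : ℤ)) : ZMod W) = 0 ↔ (u : ZMod W) = v := by
      push_cast
      exact sub_eq_zero
    by_cases h : (u : ZMod W) = v
    · rw [if_pos (h2.2 h), if_pos h]
      ring
    · rw [if_neg (fun h' => h (h2.1 h')), if_neg h, mul_zero]
  apply Complex.ofReal_injective
  rw [hl, Complex.ofReal_mul, hr, Finset.mul_sum]
  refine Finset.sum_congr rfl fun u _ => ?_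
  rw [Finset.mul_sum]
  refine Finset.sum_congr rfl fun v _ => ?_
  split_ifs
  · push_cast
    field_simp
  · simp

/-! ## shifts -/

theorem ftr_one (M : ℕ) (F : ℕ → ℝ) (α : ℝ) : ftr M F (α + 1) = ftr M F α := by
  unfold ftr
  refine Finset.sum_congr rfl fun u _ => ?_
  have : (u : ℝ) * (α + 1) = u * α + ((u : ℤ) : ℝ) := by push_cast; ring
  rw [this, ee_add, ee_int, mul_one]

theorem E_shift {W : ℕ} [NeZero W] {E : Set ℝ} (hE : ∀ α : ℝ, α ∈ E ↔ α + 1 / (W : ℝ) ∈ E) (j : ℕ)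
    (α : ℝ) : α ∈ E ↔ α + j / (W : ℝ) ∈ E := by
  induction j with
  | zero => simp
  | succ k ih =>
    rw [ih, hE]
    have : α + (k : ℝ) / W + 1 / W = α + ((k + 1 : ℕ) : ℝ) / W := by push_cast; ring
    rw [this]

theorem E_one {W : ℕ} [NeZero W] {E : Set ℝ} (hE : ∀ α : ℝ, α ∈ E ↔ α + 1 / (W : ℝ) ∈ E)
    (α : ℝ) : α ∈ E ↔ α + 1 ∈ E := by
  have h := E_shift hE W α
  have hW : (W : ℝ) ≠ 0 := by exact_mod_cast NeZero.ne W
  rw [div_self hW] at h
  exact h

theorem int_shift {W : ℕ} [NeZero W] {E : Set ℝ} (hEm : MeasurableSet E)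
    (hE : ∀ α : ℝ, α ∈ E ↔ α + 1 / (W : ℝ) ∈ E) (g : ℝ → ℝ) (hg : ∀ α, g (α + 1) = g α) (j : ℕ) :
    ∫ α in Set.Icc (0 : ℝ) 1 ∩ E, g (α + j / W) = ∫ α in Set.Icc (0 : ℝ) 1 ∩ E, g α := by
  set k : ℝ → ℝ := E.indicator g with hk
  have hper : Function.Periodic k 1 := by
    intro α
    simp only [hk, Set.indicator]
    by_cases h : α ∈ E
    · rw [if_pos h, if_pos ((E_one hE α).1 h), hg]
    · rw [if_neg h, if_neg (fun h' => h ((E_one hE α).2 h'))]
  have h1 : ∀ c : ℕ, ∫ α in Set.Icc (0 : ℝ) 1 ∩ E, g (α + c / W) =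
      ∫ α in (0 : ℝ)..1, k (α + c / W) := by
    intro c
    rw [intervalIntegral.integral_of_le (by norm_num), ← integral_Icc_eq_integral_Ioc,
      ← setIntegral_indicator hEm]
    refine integral_congr_ae (Filter.Eventually.of_forall fun α => ?_)
    simp only [hk, Set.indicator]
    by_cases h : α ∈ E
    · rw [if_pos h, if_pos ((E_shift hE c α).1 h)]
    · rw [if_neg h, if_neg (fun h' => h ((E_shift hE c α).2 h'))]
  have h0 := h1 0
  simp only [Nat.cast_zero, zero_div, add_zero] at h0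
  rw [h1 j, h0, intervalIntegral.integral_comp_add_right (fun x => k x)]
  have := hper.intervalIntegral_add_eq ((0 : ℝ) + j / W) 0
  rw [zero_add (1 : ℝ)] at this
  rw [← this]
  congr 1
  ring

theorem cont_int {S : Set ℝ} (hS : S ⊆ Set.Icc 0 1) {E : Type*} [NormedAddCommGroup E] {f : ℝ → E}
    (hf : Continuous f) : IntegrableOn f S :=
  (hf.integrableOn_Icc).mono_set hS

theorem class_int (M W : ℕ) [NeZero W] (F : ℕ → ℝ) {E : Set ℝ} (hEm : MeasurableSet E)
    (hE : ∀ α : ℝ, α ∈ E ↔ α + 1 / (W : ℝ) ∈ E) :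
    ∑ a : ZMod W, ∫ α in Set.Icc (0 : ℝ) 1 ∩ E, ‖ftr M (cl a F) α‖ ^ 2 =
      ∫ α in Set.Icc (0 : ℝ) 1 ∩ E, ‖ftr M F α‖ ^ 2 := by
  have hW : (W : ℝ) ≠ 0 := by exact_mod_cast NeZero.ne W
  have i1 : ∀ a ∈ (Finset.univ : Finset (ZMod W)),
      IntegrableOn (fun α => ‖ftr M (cl a F) α‖ ^ 2) (Set.Icc 0 1 ∩ E) := fun a _ =>
    cont_int Set.inter_subset_left ((cont_ftr M (cl a F)).norm.pow 2)
  have i2 : ∀ j ∈ range W,
      IntegrableOn (fun α : ℝ => ‖ftr M F (α + j / W)‖ ^ 2) (Set.Icc 0 1 ∩ E) := fun j _ =>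
    cont_int Set.inter_subset_left (((cont_ftr M F).comp (continuous_add_const _)).norm.pow 2)
  rw [← integral_finsetSum _ i1]
  simp_rw [class_sum]
  rw [integral_const_mul, integral_finsetSum _ i2]
  have h1 : ∀ j ∈ range W, ∫ α in Set.Icc (0 : ℝ) 1 ∩ E, ‖ftr M F (α + j / W)‖ ^ 2 =
      ∫ α in Set.Icc (0 : ℝ) 1 ∩ E, ‖ftr M F α‖ ^ 2 := fun j _ =>
    int_shift hEm hE (fun α => ‖ftr M F α‖ ^ 2) (fun α => by rw [ftr_one]) j
  rw [Finset.sum_congr rfl h1]
  simp
  field_simp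

theorem class_bd (M W : ℕ) [NeZero W] (F : ℕ → ℝ) {E : Set ℝ}
    (hE : ∀ α : ℝ, α ∈ E ↔ α + 1 / (W : ℝ) ∈ E) {δ : ℝ}
    (hb : ∀ α ∉ E, ‖ftr M F α‖ ≤ δ) {α : ℝ} (hα : α ∉ E) :
    ∑ a : ZMod W, ‖ftr M (cl a F) α‖ ^ 2 ≤ δ ^ 2 := by
  have hW : (0 : ℝ) < W := by exact_mod_cast Nat.pos_of_ne_zero (NeZero.ne W)
  rw [class_sum]
  have h1 : ∑ j ∈ range W, ‖ftr M F (α + j / W)‖ ^ 2 ≤ ∑ j ∈ range W, δ ^ 2 := by
    refine Finset.sum_le_sum fun j _ => ?_
    exact pow_le_pow_left₀ (norm_nonneg _) (hb _ (fun h => hα ((E_shift hE j α).2 h))) 2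
  rw [Finset.sum_const, card_range, nsmul_eq_mul] at h1
  calc _ ≤ (1 / (W : ℝ)) * (W * δ ^ 2) := mul_le_mul_of_nonneg_left h1 (by positivity)
    _ = δ ^ 2 := by field_simp

/-! ## Cauchy-Schwarz and Bessel -/

theorem cs {S : Set ℝ} (hS : S ⊆ Set.Icc 0 1) {f g : ℝ → ℂ} (hf : Continuous f)
    (hg : Continuous g) :
    ‖∫ α in S, f α * g α‖ ^ 2 ≤ (∫ α in S, ‖f α‖ ^ 2) * ∫ α in S, ‖g α‖ ^ 2 := by
  set A := ∫ α in S, ‖f α‖ ^ 2 with hA
  set B := ∫ α in S, ‖f α‖ * ‖g α‖ with hB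
  set C := ∫ α in S, ‖g α‖ ^ 2 with hC
  have h1 : ‖∫ α in S, f α * g α‖ ≤ B := by
    refine (norm_integral_le_integral_norm _).trans (le_of_eq ?_)
    rw [hB]
    refine integral_congr_ae (Filter.Eventually.of_forall fun α => ?_)
    exact norm_mul _ _
  have hq : ∀ t : ℝ, 0 ≤ C * (t * t) + (-(2 * B)) * t + A := by
    intro t
    have h2 : ∫ α in S, (‖f α‖ - t * ‖g α‖) ^ 2 = C * (t * t) + (-(2 * B)) * t + A := by
      have h3 : ∀ α, (‖f α‖ - t * ‖g α‖) ^ 2 =
          (‖f α‖ ^ 2 + (-(2 * t)) * (‖f α‖ * ‖g α‖)) + (t * t) * ‖g α‖ ^ 2 := by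
        intro α; ring
      simp_rw [h3]
      have i1 : IntegrableOn (fun α => ‖f α‖ ^ 2) S := cont_int hS (hf.norm.pow 2)
      have i2 : IntegrableOn (fun α => ‖f α‖ * ‖g α‖) S := cont_int hS (hf.norm.mul hg.norm)
      have i3 : IntegrableOn (fun α => ‖g α‖ ^ 2) S := cont_int hS (hg.norm.pow 2)
      have i4 : IntegrableOn (fun α => (-(2 * t)) * (‖f α‖ * ‖g α‖)) S := i2.const_mul _
      have i5 : IntegrableOn (fun α => ‖f α‖ ^ 2 + (-(2 * t)) * (‖f α‖ * ‖g α‖)) S := i1.add i4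
      have i6 : IntegrableOn (fun α => (t * t) * ‖g α‖ ^ 2) S := i3.const_mul _
      rw [integral_add i5 i6, integral_add i1 i4, integral_const_mul, integral_const_mul]
      rw [← hA, ← hB, ← hC]
      ring
    rw [← h2]
    exact integral_nonneg fun α => sq_nonneg _
  have h4 := discrim_le_zero hq
  unfold discrim at h4
  have hB0 : 0 ≤ B := integral_nonneg fun α => by positivity
  have h5 : ‖∫ α in S, f α * g α‖ ^ 2 ≤ B ^ 2 := pow_le_pow_left₀ (norm_nonneg _) h1 2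
  nlinarith

theorem norm_mul_ee (z : ℂ) (x : ℝ) : ‖z * ee x‖ = ‖z‖ := by
  rw [norm_mul, norm_ee, mul_one]

/-- Bessel's inequality on a subset of the circle -/
theorem bessel {S : Set ℝ} (hS : S ⊆ Set.Icc 0 1) {f : ℝ → ℂ}
    (hf : Continuous f) (H : Finset ℤ) :
    ∑ h ∈ H, ‖∫ α in S, f α * ee (h * α)‖ ^ 2 ≤ ∫ α in S, ‖f α‖ ^ 2 := by
  set c : ℤ → ℂ := fun h => ∫ α in S, f α * ee (h * α) with hc
  set P : ℝ → ℂ := fun α => ∑ h ∈ H, c h * ee (-(h * α)) with hP
  have hee : ∀ h : ℤ, Continuous fun α : ℝ => ee (-(h * α)) := by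
    intro h
    have := cont_ee (-(h : ℝ))
    simpa [neg_mul] using this
  have hPc : Continuous P := continuous_finsetSum _ fun h _ => continuous_const.mul (hee h)
  set Sg : ℝ := ∑ h ∈ H, ‖c h‖ ^ 2 with hSg
  have hcP : ∀ α, conj (P α) = ∑ h ∈ H, conj (c h) * ee (h * α) := by
    intro α
    simp only [hP, map_sum, map_mul]
    refine Finset.sum_congr rfl fun h _ => ?_
    rw [conj_ee, neg_neg]
  -- the mixed term
  have hmix : ∫ α in S, f α * conj (P α) = (Sg : ℂ) := by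
    simp_rw [hcP, Finset.mul_sum]
    have i1 : ∀ h ∈ H, IntegrableOn (fun α : ℝ => f α * (conj (c h) * ee (h * α))) S := fun h _ =>
      cont_int hS (hf.mul (continuous_const.mul (cont_ee _)))
    rw [integral_finsetSum _ i1]
    rw [hSg, Complex.ofReal_sum]
    refine Finset.sum_congr rfl fun h _ => ?_
    have : ∀ α : ℝ, f α * (conj (c h) * ee (h * α)) = conj (c h) * (f α * ee (h * α)) := by
      intro α; ring
    simp_rw [this]
    rw [integral_const_mul, mul_comm]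
    have h2 : (∫ α in S, f α * ee (h * α)) = c h := rfl
    rw [h2, Complex.mul_conj, Complex.normSq_eq_norm_sq]
  -- the square term
  have hsq : ∫ α in Set.Icc (0 : ℝ) 1, ‖P α‖ ^ 2 = Sg := by
    have h1 : ∀ α : ℝ, ((‖P α‖ ^ 2 : ℝ) : ℂ) = ∑ h ∈ H, ∑ h' ∈ H,
        (c h * conj (c h')) * ee (((h' - h : ℤ) : ℝ) * α) := by
      intro α
      rw [← Complex.normSq_eq_norm_sq, ← Complex.mul_conj, hcP]
      simp only [hP]
      rw [Finset.sum_mul_sum]
      refine Finset.sum_congr rfl fun h _ => Finset.sum_congr rfl fun h' _ => ?_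
      have : ((h' - h : ℤ) : ℝ) * α = -(h * α) + h' * α := by push_cast; ring
      rw [this, ee_add]
      ring
    apply Complex.ofReal_injective
    rw [← integral_complex_ofReal]
    simp_rw [h1]
    have i1 : ∀ h ∈ H, IntegrableOn (fun α : ℝ => ∑ h' ∈ H,
        (c h * conj (c h')) * ee (((h' - h : ℤ) : ℝ) * α)) (Set.Icc 0 1) := fun h _ =>
      Continuous.integrableOn_Icc (continuous_finsetSum _
        fun h' _ => continuous_const.mul (cont_ee _))
    rw [integral_finsetSum _ i1]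
    rw [hSg, Complex.ofReal_sum]
    refine Finset.sum_congr rfl fun h hh => ?_
    have i2 : ∀ h' ∈ H, IntegrableOn (fun α : ℝ =>
        (c h * conj (c h')) * ee (((h' - h : ℤ) : ℝ) * α)) (Set.Icc 0 1) := fun h' _ =>
      Continuous.integrableOn_Icc (continuous_const.mul (cont_ee _))
    rw [integral_finsetSum _ i2]
    rw [Finset.sum_eq_single h]
    · rw [integral_const_mul, int_ee, if_pos (sub_self h), mul_one, Complex.mul_conj,
        Complex.normSq_eq_norm_sq]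
    · intro h' _ hne
      rw [integral_const_mul, int_ee, if_neg (sub_ne_zero.2 hne), mul_zero]
    · intro h'; exact absurd hh h'
  have hsqS : ∫ α in S, ‖P α‖ ^ 2 ≤ Sg := by
    rw [← hsq]
    exact setIntegral_mono_set (Continuous.integrableOn_Icc (hPc.norm.pow 2))
      (Filter.Eventually.of_forall fun α => by positivity) (Filter.Eventually.of_forall hS)
  have h0 : 0 ≤ ∫ α in S, ‖f α - P α‖ ^ 2 := integral_nonneg fun α => by positivity
  have hexp : ∫ α in S, ‖f α - P α‖ ^ 2 =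
      (∫ α in S, ‖f α‖ ^ 2) - 2 * Sg + ∫ α in S, ‖P α‖ ^ 2 := by
    have h1 : ∀ α, ‖f α - P α‖ ^ 2 = (‖f α‖ ^ 2 + (-2) * (f α * conj (P α)).re) + ‖P α‖ ^ 2 := by
      intro α
      rw [← Complex.normSq_eq_norm_sq, ← Complex.normSq_eq_norm_sq, ← Complex.normSq_eq_norm_sq,
        Complex.normSq_sub]
      ring
    simp_rw [h1]
    have i1 : IntegrableOn (fun α => ‖f α‖ ^ 2) S := cont_int hS (hf.norm.pow 2)
    have i2 : IntegrableOn (fun α => (f α * conj (P α)).re) S :=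
      cont_int hS (Complex.continuous_re.comp (hf.mul (Complex.continuous_conj.comp hPc)))
    have i3 : IntegrableOn (fun α => ‖P α‖ ^ 2) S := cont_int hS (hPc.norm.pow 2)
    have i4 : IntegrableOn (fun α => f α * conj (P α)) S :=
      cont_int hS (hf.mul (Complex.continuous_conj.comp hPc))
    have i5 : IntegrableOn (fun α => (-2) * (f α * conj (P α)).re) S := i2.const_mul _
    have i6 : IntegrableOn (fun α => ‖f α‖ ^ 2 + (-2) * (f α * conj (P α)).re) S := i1.add i5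
    rw [integral_add i6 i3, integral_add i1 i5, integral_const_mul]
    have h2 : ∫ α in S, (f α * conj (P α)).re = Sg := by
      have := integral_re i4
      rw [hmix] at this
      simpa using this
    rw [h2]
    ring
  rw [hexp] at h0
  linarith

/-! ## the main parts -/

theorem sum_cl {W : ℕ} (M : ℕ) (a : ZMod W) (G : ℕ → ℝ) :
    ∑ u ∈ range (M + 1), cl a G u ^ 2 =
      ∑ u ∈ (range (M + 1)).filter (fun u : ℕ => (u : ZMod W) = a), G u ^ 2 := by
  rw [Finset.sum_filter]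
  refine Finset.sum_congr rfl fun u _ => ?_
  unfold cl
  split_ifs <;> simp

theorem int_cl_le {W : ℕ} (M : ℕ) (a : ZMod W) (G : ℕ → ℝ) {S : Set ℝ} (hS : S ⊆ Set.Icc 0 1) :
    ∫ α in S, ‖ftr M (cl a G) α‖ ^ 2 ≤
      ∑ u ∈ (range (M + 1)).filter (fun u : ℕ => (u : ZMod W) = a), G u ^ 2 := by
  rw [← sum_cl, ← parseval]
  exact setIntegral_mono_set (Continuous.integrableOn_Icc ((cont_ftr M _).norm.pow 2))
    (Filter.Eventually.of_forall fun α => by positivity) (Filter.Eventually.of_forall hS)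

/-- the integrand -/
noncomputable def Ph {W : ℕ} (M : ℕ) (F G : ℕ → ℝ) (a : ZMod W) (h : ℤ) (α : ℝ) : ℂ :=
  ftr M (cl a F) α * conj (ftr M (cl (a + (h : ZMod W)) G) α) * ee (h * α)

theorem cont_Ph {W : ℕ} (M : ℕ) (F G : ℕ → ℝ) (a : ZMod W) (h : ℤ) : Continuous (Ph M F G a h) :=
  ((cont_ftr M _).mul (cont_conj_ftr M _)).mul (cont_ee _)

theorem minor (M W : ℕ) [NeZero W] (F G : ℕ → ℝ) {E : Set ℝ} {δ : ℝ} (hEm : MeasurableSet E)
    (hE : ∀ α : ℝ, α ∈ E ↔ α + 1 / (W : ℝ) ∈ E)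
    (hb : ∀ α ∉ E, ‖ftr M F α‖ ≤ δ) (H : Finset ℤ) :
    ∑ h ∈ H, ∑ a : ZMod W, ‖∫ α in Set.Icc (0 : ℝ) 1 \ E, Ph M F G a h α‖ ^ 2 ≤
      δ ^ 2 * ∑ u ∈ range (M + 1), G u ^ 2 := by
  classical
  set S := Set.Icc (0 : ℝ) 1 \ E with hS
  have hSm : MeasurableSet S := measurableSet_Icc.diff hEm
  have hSI : S ⊆ Set.Icc 0 1 := Set.sdiff_subset
  set x : ZMod W → ℝ → ℂ := fun a => ftr M (cl a F) with hx
  set y : ZMod W → ℝ → ℂ := fun a α => conj (ftr M (cl a G) α) with hy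
  have hxc : ∀ a, Continuous (x a) := fun a => cont_ftr M _
  have hyc : ∀ a, Continuous (y a) := fun a => cont_conj_ftr M _
  have hyn : ∀ a α, ‖y a α‖ = ‖ftr M (cl a G) α‖ := fun a α => RCLike.norm_conj _
  calc ∑ h ∈ H, ∑ a : ZMod W, ‖∫ α in S, Ph M F G a h α‖ ^ 2
      ≤ ∑ h ∈ H, ∑ a : ZMod W, ∑ a' : ZMod W, ‖∫ α in S, (x a α * y a' α) * ee (h * α)‖ ^ 2 := by
        refine Finset.sum_le_sum fun h _ => Finset.sum_le_sum fun a _ => ?_
        exact Finset.single_le_sum (f := fun a' => ‖∫ α in S, (x a α * y a' α) * ee (h * α)‖ ^ 2)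
          (fun a' _ => by positivity) (Finset.mem_univ (a + (h : ZMod W)))
    _ = ∑ a : ZMod W, ∑ a' : ZMod W, ∑ h ∈ H, ‖∫ α in S, (x a α * y a' α) * ee (h * α)‖ ^ 2 := by
        rw [Finset.sum_comm]
        refine Finset.sum_congr rfl fun a _ => ?_
        rw [Finset.sum_comm]
    _ ≤ ∑ a : ZMod W, ∑ a' : ZMod W, ∫ α in S, ‖x a α * y a' α‖ ^ 2 := by
        refine Finset.sum_le_sum fun a _ => Finset.sum_le_sum fun a' _ => ?_
        exact bessel hSI ((hxc a).mul (hyc a')) H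
    _ = ∫ α in S, (∑ a : ZMod W, ‖x a α‖ ^ 2) * ∑ a' : ZMod W, ‖y a' α‖ ^ 2 := by
        have i1 : ∀ a a', IntegrableOn (fun α => ‖x a α * y a' α‖ ^ 2) S := fun a a' =>
          cont_int hSI (((hxc a).mul (hyc a')).norm.pow 2)
        have i2 : ∀ a, IntegrableOn (fun α => ∑ a' : ZMod W, ‖x a α * y a' α‖ ^ 2) S := fun a =>
          cont_int hSI (continuous_finsetSum _ fun a' _ => ((hxc a).mul (hyc a')).norm.pow 2)
        have h1 : ∀ a, ∑ a' : ZMod W, ∫ α in S, ‖x a α * y a' α‖ ^ 2 =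
            ∫ α in S, ∑ a' : ZMod W, ‖x a α * y a' α‖ ^ 2 := fun a =>
          (integral_finsetSum _ (fun a' _ => i1 a a')).symm
        simp_rw [h1]
        rw [← integral_finsetSum _ (fun a _ => i2 a)]
        refine integral_congr_ae (Filter.Eventually.of_forall fun α => ?_)
        simp only
        rw [Finset.sum_mul_sum]
        refine Finset.sum_congr rfl fun a _ => Finset.sum_congr rfl fun a' _ => ?_
        rw [norm_mul, mul_pow]
    _ ≤ ∫ α in S, δ ^ 2 * ∑ a' : ZMod W, ‖y a' α‖ ^ 2 := by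
        have c1 : Continuous fun α => (∑ a : ZMod W, ‖x a α‖ ^ 2) * ∑ a' : ZMod W, ‖y a' α‖ ^ 2 :=
          (continuous_finsetSum _ fun a _ => (hxc a).norm.pow 2).mul
            (continuous_finsetSum _ fun a _ => (hyc a).norm.pow 2)
        have c2 : Continuous fun α => δ ^ 2 * ∑ a' : ZMod W, ‖y a' α‖ ^ 2 :=
          continuous_const.mul (continuous_finsetSum _ fun a _ => (hyc a).norm.pow 2)
        refine setIntegral_mono_on (cont_int hSI c1) (cont_int hSI c2) hSm fun α hα => ?_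
        refine mul_le_mul_of_nonneg_right ?_ (Finset.sum_nonneg fun a' _ => by positivity)
        exact class_bd M W F hE hb hα.2
    _ ≤ ∫ α in Set.Icc (0 : ℝ) 1, δ ^ 2 * ∑ a' : ZMod W, ‖y a' α‖ ^ 2 := by
        have c2 : Continuous fun α => δ ^ 2 * ∑ a' : ZMod W, ‖y a' α‖ ^ 2 :=
          continuous_const.mul (continuous_finsetSum _ fun a _ => (hyc a).norm.pow 2)
        exact setIntegral_mono_set (Continuous.integrableOn_Icc c2)
          (Filter.Eventually.of_forall fun α => by positivity) (Filter.Eventually.of_forall hSI)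
    _ = δ ^ 2 * ∑ u ∈ range (M + 1), G u ^ 2 := by
        rw [integral_const_mul]
        congr 1
        have i1 : ∀ a' ∈ (Finset.univ : Finset (ZMod W)),
            IntegrableOn (fun α => ‖y a' α‖ ^ 2) (Set.Icc 0 1) := fun a' _ =>
          Continuous.integrableOn_Icc ((hyc a').norm.pow 2)
        rw [integral_finsetSum _ i1]
        simp_rw [hyn, parseval]
        rw [Finset.sum_comm]
        refine Finset.sum_congr rfl fun u _ => ?_
        rw [Finset.sum_eq_single (u : ZMod W)]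
        · simp [cl]
        · intro b _ hb'
          have hne : ¬ ((u : ZMod W) = b) := fun h => hb' h.symm
          simp [cl, hne]
        · intro h; exact absurd (Finset.mem_univ _) h

theorem t_ENG : S_ENG := by
  intro M W _ F F' G G' E δ DF DG EF EG hEm hE hδ hb hDF hDG hEF hEG
  classical
  set S₁ := Set.Icc (0 : ℝ) 1 ∩ E with hS₁
  set S₂ := Set.Icc (0 : ℝ) 1 \ E with hS₂
  have hS₁I : S₁ ⊆ Set.Icc 0 1 := Set.inter_subset_left
  refine ⟨fun a h => (∫ α in S₁, Ph M F G a h α) - ∫ α in S₁, Ph M F' G' a h α,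
    fun a h => (∫ α in S₂, Ph M F G a h α) - ∫ α in S₂, Ph M F' G' a h α, ?_, ?_, ?_⟩
  · intro a h
    have key : ∀ F G : ℕ → ℝ, (cor M W F G a h : ℂ) =
        (∫ α in S₁, Ph M F G a h α) + ∫ α in S₂, Ph M F G a h α := by
      intro F G
      rw [cor_eq]
      exact (integral_inter_add_sdiff hEm (Continuous.integrableOn_Icc (cont_Ph M F G a h))).symm
    rw [Complex.ofReal_sub, key, key]
    ring
  · intro h
    have hEG0 : 0 ≤ EG := (Finset.sum_nonneg fun u _ => sq_nonneg (G u)).trans (hEG 0)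
    have hEF0 : 0 ≤ EF := (Finset.sum_nonneg fun u _ => sq_nonneg (F' u)).trans (hEF 0)
    set dF : ℕ → ℝ := fun u => F u - F' u with hdF
    set dG : ℕ → ℝ := fun u => G u - G' u with hdG
    have hbd : ∀ a : ZMod W, ‖(∫ α in S₁, Ph M F G a h α) - ∫ α in S₁, Ph M F' G' a h α‖ ^ 2 ≤
        2 * ((∫ α in S₁, ‖ftr M (cl a dF) α‖ ^ 2) * EG) +
          2 * (EF * ∫ α in S₁, ‖ftr M (cl (a + (h : ZMod W)) dG) α‖ ^ 2) := by
      intro a
      set A := ∫ α in S₁, ftr M (cl a dF) α * (conj (ftr M (cl (a + (h : ZMod W)) G) α) *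
        ee (h * α)) with hA
      set B := ∫ α in S₁, ftr M (cl a F') α * (conj (ftr M (cl (a + (h : ZMod W)) dG) α) *
        ee (h * α)) with hB
      have cA : Continuous fun α : ℝ => conj (ftr M (cl (a + (h : ZMod W)) G) α) * ee (h * α) :=
        (cont_conj_ftr M _).mul (cont_ee _)
      have cB : Continuous fun α : ℝ => conj (ftr M (cl (a + (h : ZMod W)) dG) α) * ee (h * α) :=
        (cont_conj_ftr M _).mul (cont_ee _)
      have hAB : (∫ α in S₁, Ph M F G a h α) - ∫ α in S₁, Ph M F' G' a h α = A + B := by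
        have i1 : IntegrableOn (fun α : ℝ => ftr M (cl a dF) α *
          (conj (ftr M (cl (a + (h : ZMod W)) G) α) * ee (h * α))) S₁ :=
          cont_int hS₁I ((cont_ftr M _).mul cA)
        have i2 : IntegrableOn (fun α : ℝ => ftr M (cl a F') α *
          (conj (ftr M (cl (a + (h : ZMod W)) dG) α) * ee (h * α))) S₁ :=
          cont_int hS₁I ((cont_ftr M _).mul cB)
        rw [← integral_sub (cont_int hS₁I (cont_Ph M F G a h)) (cont_int hS₁I (cont_Ph M F' G' a h)),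
          hA, hB, ← integral_add i1 i2]
        refine integral_congr_ae (Filter.Eventually.of_forall fun α => ?_)
        simp only [Ph, hdF, hdG]
        rw [cl_sub, cl_sub, ftr_sub, ftr_sub, map_sub]
        ring
      rw [hAB]
      have h1 : ‖A‖ ^ 2 ≤ (∫ α in S₁, ‖ftr M (cl a dF) α‖ ^ 2) * EG := by
        refine (cs hS₁I (cont_ftr M _) cA).trans ?_
        refine mul_le_mul_of_nonneg_left ?_ (integral_nonneg fun α => by positivity)
        simp_rw [norm_mul_ee, RCLike.norm_conj]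
        exact (int_cl_le M _ G hS₁I).trans (hEG _)
      have h2 : ‖B‖ ^ 2 ≤ EF * ∫ α in S₁, ‖ftr M (cl (a + (h : ZMod W)) dG) α‖ ^ 2 := by
        refine (cs hS₁I (cont_ftr M _) cB).trans ?_
        simp_rw [norm_mul_ee, RCLike.norm_conj]
        refine mul_le_mul_of_nonneg_right ?_ (integral_nonneg fun α => by positivity)
        exact (int_cl_le M _ F' hS₁I).trans (hEF _)
      have h3 : ‖A + B‖ ≤ ‖A‖ + ‖B‖ := norm_add_le _ _
      have h4 : ‖A + B‖ ^ 2 ≤ (‖A‖ + ‖B‖) ^ 2 := pow_le_pow_left₀ (norm_nonneg _) h3 2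
      nlinarith [sq_nonneg (‖A‖ - ‖B‖)]
    have hsum := Finset.sum_le_sum fun (a : ZMod W) (_ : a ∈ Finset.univ) => hbd a
    rw [Finset.sum_add_distrib, ← Finset.mul_sum, ← Finset.mul_sum, ← Finset.sum_mul,
      ← Finset.mul_sum] at hsum
    have e1 : ∑ a : ZMod W, ∫ α in S₁, ‖ftr M (cl a dF) α‖ ^ 2 ≤ DF := by
      rw [hS₁, class_int M W dF hEm hE]
      exact hDF
    have e2 : ∑ a : ZMod W, ∫ α in S₁, ‖ftr M (cl (a + (h : ZMod W)) dG) α‖ ^ 2 ≤ DG := by
      have e5 := Equiv.sum_comp (Equiv.addRight (h : ZMod W))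
        (fun a => ∫ α in S₁, ‖ftr M (cl a dG) α‖ ^ 2)
      simp only [Equiv.coe_addRight] at e5
      rw [e5, hS₁, class_int M W dG hEm hE]
      exact hDG
    have e3 := mul_le_mul_of_nonneg_right e1 hEG0
    have e4 := mul_le_mul_of_nonneg_left e2 hEF0
    refine hsum.trans ?_
    linarith
  · intro H
    have m1 := minor M W F G hEm hE (fun α hα => (hb α hα).1) H
    have m2 := minor M W F' G' hEm hE (fun α hα => (hb α hα).2) H
    have hbd : ∀ (h : ℤ) (a : ZMod W),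
        ‖(∫ α in S₂, Ph M F G a h α) - ∫ α in S₂, Ph M F' G' a h α‖ ^ 2 ≤
        2 * ‖∫ α in S₂, Ph M F G a h α‖ ^ 2 + 2 * ‖∫ α in S₂, Ph M F' G' a h α‖ ^ 2 := by
      intro h a
      set A := ∫ α in S₂, Ph M F G a h α
      set B := ∫ α in S₂, Ph M F' G' a h α
      have h3 : ‖A - B‖ ≤ ‖A‖ + ‖B‖ := norm_sub_le _ _
      have h4 : ‖A - B‖ ^ 2 ≤ (‖A‖ + ‖B‖) ^ 2 := pow_le_pow_left₀ (norm_nonneg _) h3 2
      nlinarith [sq_nonneg (‖A‖ - ‖B‖)]
    have hsum := Finset.sum_le_sum fun (h : ℤ) (_ : h ∈ H) =>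
      Finset.sum_le_sum fun (a : ZMod W) (_ : a ∈ Finset.univ) => hbd h a
    simp_rw [Finset.sum_add_distrib, ← Finset.mul_sum] at hsum
    refine hsum.trans ?_
    linarith

end Pool.Agent.Q190.SZE

theorem Pool.Agent.Q145.SZ.t_ENG : Pool.Agent.Q145.SZ.S_ENG := Pool.Agent.Q190.SZE.t_ENG
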