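import Pool.Agent.Q145.SZ.Stm2

set_option autoImplicit false

/-!
# Project SZ, job MODC: correlations of the model along a class
-/

namespace Pool.Agent.Q190.SZC

open Finset Pool.Agent.Q145.SZ

/-! ## counting in residue classes -/

theorem count_mod (X M a : ℕ) (hM : 0 < M) :
    |(((Icc 1 X).filter fun s => s ≡ a [MOD M]).card : ℝ) - (X : ℝ) / M| ≤ 1 := by
  have h1 : Icc 1 X = Ioc 0 X := by ext; simp [Nat.succ_le_iff]
  rw [h1]
  have h := Nat.Ioc_filter_modEq_card 0 X hM a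
  have hMq : (0 : ℚ) < M := by exact_mod_cast hM
  set A : ℚ := ((X : ℕ) - (a : ℕ) : ℚ) / (M : ℚ) with hA
  set B : ℚ := (((0 : ℕ) : ℚ) - (a : ℕ)) / (M : ℚ) with hB
  have hAB : A - B = X / M := by
    rw [hA, hB]; field_simp; push_cast; ring
  have hge : B ≤ A := by
    have : 0 ≤ (X : ℚ) / M := by positivity
    linarith
  have hfl : ⌊B⌋ ≤ ⌊A⌋ := Int.floor_le_floor hge
  rw [max_eq_left (by omega)] at h
  have f1 := Int.floor_le A
  have f2 := Int.lt_floor_add_one A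
  have f3 := Int.floor_le B
  have f4 := Int.lt_floor_add_one B
  have h2 : ((((Ioc 0 X).filter fun s => s ≡ a [MOD M]).card : ℤ) : ℚ) = (⌊A⌋ : ℚ) - ⌊B⌋ := by
    rw [h]; push_cast; ring
  have h3 : |((((Ioc 0 X).filter fun s => s ≡ a [MOD M]).card : ℕ) : ℚ) - (X : ℚ) / M| ≤ 1 := by
    rw [← hAB, abs_le]
    have h4 : ((((Ioc 0 X).filter fun s => s ≡ a [MOD M]).card : ℕ) : ℚ) = (⌊A⌋ : ℚ) - ⌊B⌋ := by
      rw [← h2]; norm_cast
    rw [h4]
    constructor <;> linarith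
  have h5 : (((|((((Ioc 0 X).filter fun s => s ≡ a [MOD M]).card : ℕ) : ℚ) - (X : ℚ) / M| : ℚ)) : ℝ)
      ≤ ((1 : ℚ) : ℝ) := by exact_mod_cast h3
  push_cast at h5
  exact h5

theorem dst_dvd {g n m : ℕ} : g ∣ dst n m ↔ n ≡ m [MOD g] := by
  unfold dst
  rcases le_total n m with h | h
  · rw [Nat.sub_eq_zero_of_le h, zero_add]
    exact (Nat.modEq_iff_dvd' h).symm
  · rw [Nat.sub_eq_zero_of_le h, add_zero]
    rw [Nat.ModEq.comm]
    exact (Nat.modEq_iff_dvd' h).symm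

/-- `d ∣ n + s` is the congruence `s ≡ n (d - 1)`. -/
theorem dvd_add_iff_mod {d n s : ℕ} (hd : 0 < d) : d ∣ n + s ↔ s ≡ n * (d - 1) [MOD d] := by
  have h1 : n + n * (d - 1) = n * d := by
    obtain ⟨e, rfl⟩ : ∃ e, d = e + 1 := ⟨d - 1, by omega⟩
    simp only [Nat.add_sub_cancel]; ring
  have h2 : n + n * (d - 1) ≡ 0 [MOD d] := by
    rw [h1]; exact (Nat.modEq_zero_iff_dvd).2 (Dvd.intro_left _ rfl)
  constructor
  · intro h
    have h3 : n + s ≡ n + n * (d - 1) [MOD d] := ((Nat.modEq_zero_iff_dvd).2 h).trans h2.symm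
    exact Nat.ModEq.add_left_cancel' n h3
  · intro h
    exact (Nat.modEq_zero_iff_dvd).1 ((h.add_left n).trans h2)

theorem count_set (W : ℕ) [NeZero W] (X n m d1 d2 : ℕ) (β : ZMod W) (h1 : 0 < d1) (h2 : 0 < d2)
    (c1 : d1.Coprime W) (c2 : d2.Coprime W) :
    |(((cls X β).filter fun s => d1 ∣ n + s ∧ d2 ∣ m + s).card : ℝ) -
      (if Nat.gcd d1 d2 ∣ dst n m then (X : ℝ) / (W * Nat.lcm d1 d2) else 0)| ≤ 1 := by
  classical
  have hW : 0 < W := Nat.pos_of_ne_zero (NeZero.ne W)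
  have hl : 0 < Nat.lcm d1 d2 := Nat.lcm_pos h1 h2
  split_ifs with hg
  · -- a common solution
    have hnm : n ≡ m [MOD Nat.gcd d1 d2] := dst_dvd.1 hg
    have hcomp : n * (d1 - 1) ≡ m * (d2 - 1) [MOD Nat.gcd d1 d2] := by
      have e1 : n + n * (d1 - 1) ≡ m + m * (d2 - 1) [MOD Nat.gcd d1 d2] := by
        have a1 : Nat.gcd d1 d2 ∣ n + n * (d1 - 1) :=
          (Nat.gcd_dvd_left d1 d2).trans ((dvd_add_iff_mod h1).2 (Nat.ModEq.refl _))
        have a2 : Nat.gcd d1 d2 ∣ m + m * (d2 - 1) :=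
          (Nat.gcd_dvd_right d1 d2).trans ((dvd_add_iff_mod h2).2 (Nat.ModEq.refl _))
        exact ((Nat.modEq_zero_iff_dvd).2 a1).trans ((Nat.modEq_zero_iff_dvd).2 a2).symm
      exact Nat.ModEq.add_left_cancel hnm e1
    obtain ⟨s1, hs1, hs2⟩ := Nat.chineseRemainder' hcomp
    have hcop : (Nat.lcm d1 d2).Coprime W := Nat.Coprime.coprime_dvd_left
      (Nat.lcm_dvd_mul d1 d2) (Nat.Coprime.mul_left c1 c2)
    obtain ⟨s0, hs3, hs4⟩ := Nat.chineseRemainder hcop s1 β.val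
    have hset : ((cls X β).filter fun s => d1 ∣ n + s ∧ d2 ∣ m + s) =
        (Icc 1 X).filter fun s => s ≡ s0 [MOD (W * Nat.lcm d1 d2)] := by
      ext s
      simp only [cls, mem_filter]
      have e0 : s ≡ s0 [MOD (W * Nat.lcm d1 d2)] ↔ s ≡ s0 [MOD W] ∧ s ≡ s0 [MOD Nat.lcm d1 d2] :=
        (Nat.modEq_and_modEq_iff_modEq_mul hcop.symm).symm
      have e1 : (s : ZMod W) = β ↔ s ≡ s0 [MOD W] := by
        rw [← ZMod.natCast_eq_natCast_iff]
        have : (s0 : ZMod W) = β := by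
          have := (ZMod.natCast_eq_natCast_iff _ _ _).2 hs4
          rw [this, ZMod.natCast_zmod_val]
        rw [this]
      have e2 : s ≡ s0 [MOD Nat.lcm d1 d2] ↔ s ≡ s0 [MOD d1] ∧ s ≡ s0 [MOD d2] := by
        constructor
        · intro h
          exact ⟨h.of_dvd (Nat.dvd_lcm_left _ _), h.of_dvd (Nat.dvd_lcm_right _ _)⟩
        · rintro ⟨h, h'⟩
          rw [Nat.modEq_iff_dvd] at h h' ⊢
          have : ((Nat.lcm d1 d2 : ℕ) : ℤ) = ((Int.lcm d1 d2 : ℕ) : ℤ) := by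
            simp [Int.lcm]
          rw [this]
          exact Int.coe_lcm_dvd h h'
      have e3 : d1 ∣ n + s ↔ s ≡ s0 [MOD d1] := by
        rw [dvd_add_iff_mod h1]
        have h5 : s0 ≡ n * (d1 - 1) [MOD d1] := (hs3.of_dvd (Nat.dvd_lcm_left _ _)).trans hs1
        exact ⟨fun h => h.trans h5.symm, fun h => h.trans h5⟩
      have e4 : d2 ∣ m + s ↔ s ≡ s0 [MOD d2] := by
        rw [dvd_add_iff_mod h2]
        have h5 : s0 ≡ m * (d2 - 1) [MOD d2] := (hs3.of_dvd (Nat.dvd_lcm_right _ _)).trans hs2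
        exact ⟨fun h => h.trans h5.symm, fun h => h.trans h5⟩
      rw [e0, e1, e2, e3, e4]
      tauto
    rw [hset]
    have := count_mod X (W * Nat.lcm d1 d2) s0 (Nat.mul_pos hW hl)
    push_cast at this
    exact this
  · have : ((cls X β).filter fun s => d1 ∣ n + s ∧ d2 ∣ m + s) = ∅ := by
      rw [Finset.filter_eq_empty_iff]
      rintro s - ⟨a1, a2⟩
      apply hg
      rw [dst_dvd]
      have b1 : n + s ≡ 0 [MOD Nat.gcd d1 d2] :=
        (Nat.modEq_zero_iff_dvd).2 ((Nat.gcd_dvd_left d1 d2).trans a1)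
      have b2 : m + s ≡ 0 [MOD Nat.gcd d1 d2] :=
        (Nat.modEq_zero_iff_dvd).2 ((Nat.gcd_dvd_right d1 d2).trans a2)
      exact Nat.ModEq.add_right_cancel' s (b1.trans b2.symm)
    rw [this]
    simp

/-! ## Moebius inversion -/

theorem mob {f g : ℕ → ℝ} (h : ∀ n > 0, ∑ i ∈ n.divisors, f i = g n) (n : ℕ) (hn : 0 < n) :
    ∑ d ∈ n.divisors, ((ArithmeticFunction.moebius (n / d) : ℤ) : ℝ) * g d = f n := by
  have h1 := (ArithmeticFunction.sum_eq_iff_sum_mul_moebius_eq (f := f) (g := g)).1 h n hn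
  rw [← h1, Nat.sum_divisorsAntidiagonal' (f := fun a b =>
    ((ArithmeticFunction.moebius a : ℤ) : ℝ) * g b)]

theorem bom {f g : ℕ → ℝ}
    (h : ∀ n > 0, ∑ d ∈ n.divisors, ((ArithmeticFunction.moebius (n / d) : ℤ) : ℝ) * g d = f n)
    (n : ℕ) (hn : 0 < n) : ∑ i ∈ n.divisors, f i = g n := by
  refine (ArithmeticFunction.sum_eq_iff_sum_mul_moebius_eq (f := f) (g := g)).2 (fun k hk => ?_) n hn
  rw [← h k hk, Nat.sum_divisorsAntidiagonal' (f := fun a b =>
    ((ArithmeticFunction.moebius a : ℤ) : ℝ) * g b)]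

/-- `g` if `g ∣ h`, otherwise `0` -/
noncomputable def GG (h g : ℕ) : ℝ := if g ∣ h then (g : ℝ) else 0

theorem rsum_eq (q h : ℕ) : rsum q h =
    ∑ d ∈ q.divisors, ((ArithmeticFunction.moebius (q / d) : ℤ) : ℝ) * GG h d := by
  unfold rsum GG
  rw [Finset.sum_filter]
  refine Finset.sum_congr rfl fun d _ => ?_
  split_ifs <;> ring

theorem sum_rsum (h n : ℕ) (hn : 0 < n) : ∑ e ∈ n.divisors, rsum e h = GG h n :=
  bom (f := fun e => rsum e h) (g := GG h) (fun k _ => (rsum_eq k h).symm) n hn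

theorem diag (h q1 q2 : ℕ) (h1 : 0 < q1) (h2 : 0 < q2) :
    ∑ d1 ∈ q1.divisors, ∑ d2 ∈ q2.divisors, ((ArithmeticFunction.moebius (q1 / d1) : ℤ) : ℝ) *
      ((ArithmeticFunction.moebius (q2 / d2) : ℤ) : ℝ) * GG h (Nat.gcd d1 d2) =
    if q1 = q2 then rsum q1 h else 0 := by
  classical
  have hin : ∀ d1 : ℕ, ∑ d2 ∈ q2.divisors, ((ArithmeticFunction.moebius (q2 / d2) : ℤ) : ℝ) *
      GG h (Nat.gcd d1 d2) = if q2 ∣ d1 then rsum q2 h else 0 := by
    intro d1
    refine mob (f := fun e => if e ∣ d1 then rsum e h else 0) (g := fun d2 => GG h (Nat.gcd d1 d2))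
      (fun n hn => ?_) q2 h2
    rw [← Finset.sum_filter]
    have : n.divisors.filter (fun e => e ∣ d1) = (Nat.gcd d1 n).divisors := by
      ext e
      simp only [mem_filter, Nat.mem_divisors, Nat.dvd_gcd_iff]
      have : Nat.gcd d1 n ≠ 0 := (Nat.gcd_pos_of_pos_right d1 hn).ne'
      constructor
      · rintro ⟨⟨a, b⟩, c⟩
        exact ⟨⟨c, a⟩, this⟩
      · rintro ⟨⟨a, b⟩, c⟩
        exact ⟨⟨b, hn.ne'⟩, a⟩
    rw [this]
    exact sum_rsum h _ (Nat.gcd_pos_of_pos_right d1 hn)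
  have hout : ∑ d1 ∈ q1.divisors, ((ArithmeticFunction.moebius (q1 / d1) : ℤ) : ℝ) *
      (if q2 ∣ d1 then (1 : ℝ) else 0) = if q1 = q2 then 1 else 0 := by
    refine mob (f := fun e => if e = q2 then (1 : ℝ) else 0) (g := fun d => if q2 ∣ d then 1 else 0)
      (fun n hn => ?_) q1 h1
    rw [Finset.sum_ite_eq' n.divisors q2]
    simp only [Nat.mem_divisors]
    by_cases hq : q2 ∣ n
    · rw [if_pos ⟨hq, hn.ne'⟩, if_pos hq]
    · rw [if_neg (fun hh => hq hh.1), if_neg hq]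
  calc _ = ∑ d1 ∈ q1.divisors, ((ArithmeticFunction.moebius (q1 / d1) : ℤ) : ℝ) *
        (if q2 ∣ d1 then rsum q2 h else 0) := by
        refine Finset.sum_congr rfl fun d1 _ => ?_
        rw [← hin d1, Finset.mul_sum]
        refine Finset.sum_congr rfl fun d2 _ => ?_
        ring
    _ = (∑ d1 ∈ q1.divisors, ((ArithmeticFunction.moebius (q1 / d1) : ℤ) : ℝ) *
        (if q2 ∣ d1 then (1 : ℝ) else 0)) * rsum q2 h := by
        rw [Finset.sum_mul]
        refine Finset.sum_congr rfl fun d1 _ => ?_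
        split_ifs <;> ring
    _ = _ := by
        rw [hout]
        split_ifs with hq
        · rw [hq, one_mul]
        · rw [zero_mul]

/-! ## the size of the error -/

theorem sig_le (q : ℕ) (hq : Squarefree q) :
    2 * ∑ d ∈ q.divisors, d ≤ (if 2 ∣ q then 3 else 2) * (q * Nat.totient q) := by
  induction q using Nat.recOnPosPrimePosCoprime with
  | prime_pow p n hp hn =>
    have hn1 : n = 1 := ((Nat.squarefree_pow_iff hp.ne_one hn.ne').1 hq).2
    subst hn1
    rw [pow_one, Nat.totient_prime hp, Nat.Prime.sum_divisors hp]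
    obtain ⟨k, hk⟩ : ∃ k, p = k + 2 := ⟨p - 2, by have := hp.two_le; omega⟩
    by_cases h2 : p = 2
    · subst h2; simp
    · have h3 : ¬ 2 ∣ p := fun h => h2 ((Nat.prime_dvd_prime_iff_eq Nat.prime_two hp).1 h).symm
      rw [if_neg h3]
      subst hk
      have hk1 : 1 ≤ k := by omega
      have e : k + 2 - 1 = k + 1 := by omega
      rw [e]
      nlinarith
  | zero => exact absurd hq not_squarefree_zero
  | one => simp
  | coprime a b ha hb hab iha ihb =>
    have hsa := hq.of_mul_left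
    have hsb := hq.of_mul_right
    have i1 := iha hsa
    have i2 := ihb hsb
    rw [Nat.Coprime.sum_divisors_mul hab, Nat.totient_mul hab]
    set A := ∑ d ∈ a.divisors, d
    set B := ∑ d ∈ b.divisors, d
    by_cases h2a : 2 ∣ a
    · have h2b : ¬ 2 ∣ b := fun h => by
        have := Nat.dvd_gcd h2a h
        rw [hab] at this
        omega
      rw [if_pos h2a] at i1
      rw [if_neg h2b] at i2
      rw [if_pos (h2a.mul_right b)]
      have : (2 * A) * (2 * B) ≤ (3 * (a * a.totient)) * (2 * (b * b.totient)) :=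
        Nat.mul_le_mul i1 i2
      nlinarith
    · rw [if_neg h2a] at i1
      by_cases h2b : 2 ∣ b
      · rw [if_pos h2b] at i2
        rw [if_pos (h2b.mul_left a)]
        have : (2 * A) * (2 * B) ≤ (2 * (a * a.totient)) * (3 * (b * b.totient)) :=
          Nat.mul_le_mul i1 i2
        nlinarith
      · rw [if_neg h2b] at i2
        rw [if_neg (fun h => (Nat.prime_two.dvd_mul.1 h).elim h2a h2b)]
        have : (2 * A) * (2 * B) ≤ (2 * (a * a.totient)) * (2 * (b * b.totient)) :=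
          Nat.mul_le_mul i1 i2
        nlinarith

/-- the size of one modulus in the error term -/
noncomputable def Ec (q : ℕ) : ℝ :=
  |((ArithmeticFunction.moebius q : ℤ) : ℝ)| / (Nat.totient q : ℝ) * (∑ d ∈ q.divisors, (d : ℝ))

theorem Ec_nonneg (q : ℕ) : 0 ≤ Ec q := by
  unfold Ec
  positivity

theorem Ec_le (q : ℕ) (hq : 1 ≤ q) : Ec q ≤ 2 * (q : ℝ) - 1 := by
  have hq1 : (1 : ℝ) ≤ q := by exact_mod_cast hq
  unfold Ec
  by_cases hs : Squarefree q
  · rcases Nat.eq_or_lt_of_le hq with h1 | h1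
    · subst h1
      simp
      norm_num
    · have hφ : (0 : ℝ) < (Nat.totient q : ℝ) := by exact_mod_cast Nat.totient_pos.2 hq
      have hμ : |((ArithmeticFunction.moebius q : ℤ) : ℝ)| ≤ 1 := by
        have := ArithmeticFunction.abs_moebius_le_one (n := q)
        exact_mod_cast this
      have h3 := sig_le q hs
      have h4 : 2 * ∑ d ∈ q.divisors, d ≤ 3 * (q * Nat.totient q) :=
        h3.trans (Nat.mul_le_mul_right _ (by split_ifs <;> omega))
      have h5 : 2 * (∑ d ∈ q.divisors, (d : ℝ)) ≤ 3 * (q * (Nat.totient q : ℝ)) := by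
        have h9 : (((2 * ∑ d ∈ q.divisors, d : ℕ)) : ℝ) ≤ ((3 * (q * Nat.totient q) : ℕ) : ℝ) := by
          exact_mod_cast h4
        push_cast at h9
        exact h9
      have h6 : (2 : ℝ) ≤ q := by exact_mod_cast h1
      have h7 : 0 ≤ ∑ d ∈ q.divisors, (d : ℝ) := Finset.sum_nonneg fun _ _ => by positivity
      rw [div_mul_eq_mul_div, div_le_iff₀ hφ]
      have h8 : |((ArithmeticFunction.moebius q : ℤ) : ℝ)| * ∑ d ∈ q.divisors, (d : ℝ) ≤
          1 * ∑ d ∈ q.divisors, (d : ℝ) := mul_le_mul_of_nonneg_right hμ h7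
      nlinarith
  · rw [ArithmeticFunction.moebius_eq_zero_of_not_squarefree hs]
    simp
    linarith

theorem sum_Ec (R : ℕ) : ∑ q ∈ Icc 1 R, Ec q ≤ (R : ℝ) ^ 2 := by
  have h1 : ∑ q ∈ Icc 1 R, Ec q ≤ ∑ q ∈ Icc 1 R, (2 * (q : ℝ) - 1) :=
    Finset.sum_le_sum fun q hq => Ec_le q (mem_Icc.1 hq).1
  have h2 : ∀ R : ℕ, ∑ q ∈ Icc 1 R, (2 * (q : ℝ) - 1) = (R : ℝ) ^ 2 := by
    intro R
    induction R with
    | zero => simp
    | succ k ih =>
      rw [Finset.sum_Icc_succ_top (by omega), ih]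
      push_cast
      ring
  rw [h2] at h1
  exact h1

theorem inner (W : ℕ) [NeZero W] (X n m q1 q2 : ℕ) (β : ZMod W) (h1 : 0 < q1) (h2 : 0 < q2)
    (c1 : q1.Coprime W) (c2 : q2.Coprime W) :
    |∑ s ∈ cls X β, rsum q1 (n + s) * rsum q2 (m + s) -
      (X : ℝ) / W * (if q1 = q2 then rsum q1 (dst n m) else 0)| ≤
    (∑ d ∈ q1.divisors, (d : ℝ)) * ∑ d ∈ q2.divisors, (d : ℝ) := by
  classical
  have hW : (0 : ℝ) < W := by exact_mod_cast Nat.pos_of_ne_zero (NeZero.ne W)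
  set N : ℕ → ℕ → ℝ := fun d1 d2 => (((cls X β).filter fun s => d1 ∣ n + s ∧ d2 ∣ m + s).card : ℝ)
    with hN
  set M : ℕ → ℕ → ℝ := fun d1 d2 => if Nat.gcd d1 d2 ∣ dst n m then (X : ℝ) / (W * Nat.lcm d1 d2)
    else 0 with hM
  set e1 : ℕ → ℝ := fun d => (d : ℝ) * ((ArithmeticFunction.moebius (q1 / d) : ℤ) : ℝ) with he1
  set e2 : ℕ → ℝ := fun d => (d : ℝ) * ((ArithmeticFunction.moebius (q2 / d) : ℤ) : ℝ) with he2
  have hexp : ∑ s ∈ cls X β, rsum q1 (n + s) * rsum q2 (m + s) =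
      ∑ d1 ∈ q1.divisors, ∑ d2 ∈ q2.divisors, e1 d1 * e2 d2 * N d1 d2 := by
    have : ∀ s, rsum q1 (n + s) * rsum q2 (m + s) = ∑ d1 ∈ q1.divisors, ∑ d2 ∈ q2.divisors,
        e1 d1 * e2 d2 * (if d1 ∣ n + s ∧ d2 ∣ m + s then 1 else 0) := by
      intro s
      unfold rsum
      rw [Finset.sum_filter, Finset.sum_filter, Finset.sum_mul_sum]
      refine Finset.sum_congr rfl fun d1 _ => Finset.sum_congr rfl fun d2 _ => ?_
      by_cases a : d1 ∣ n + s <;> by_cases b : d2 ∣ m + s <;> simp [a, b, he1, he2]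
    rw [Finset.sum_congr rfl fun s _ => this s, Finset.sum_comm]
    refine Finset.sum_congr rfl fun d1 _ => ?_
    rw [Finset.sum_comm]
    refine Finset.sum_congr rfl fun d2 _ => ?_
    rw [← Finset.mul_sum, ← Finset.sum_filter, hN]
    simp
  have hmain : ∑ d1 ∈ q1.divisors, ∑ d2 ∈ q2.divisors, e1 d1 * e2 d2 * M d1 d2 =
      (X : ℝ) / W * (if q1 = q2 then rsum q1 (dst n m) else 0) := by
    rw [← diag (dst n m) q1 q2 h1 h2, Finset.mul_sum]
    refine Finset.sum_congr rfl fun d1 hd1 => ?_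
    rw [Finset.mul_sum]
    refine Finset.sum_congr rfl fun d2 hd2 => ?_
    have p1 : (0 : ℝ) < d1 := by exact_mod_cast Nat.pos_of_mem_divisors hd1
    have p2 : (0 : ℝ) < d2 := by exact_mod_cast Nat.pos_of_mem_divisors hd2
    have hgl : ((Nat.gcd d1 d2 : ℕ) : ℝ) * (Nat.lcm d1 d2 : ℕ) = d1 * d2 := by
      exact_mod_cast Nat.gcd_mul_lcm d1 d2
    have hlp : (0 : ℝ) < (Nat.lcm d1 d2 : ℕ) := by
      exact_mod_cast Nat.lcm_pos (Nat.pos_of_mem_divisors hd1) (Nat.pos_of_mem_divisors hd2)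
    simp only [hM, GG, he1, he2]
    split_ifs with hg
    · rw [mul_comm (W : ℝ), ← div_div]
      field_simp
      linear_combination (-(((ArithmeticFunction.moebius (q1 / d1) : ℤ) : ℝ) *
        ((ArithmeticFunction.moebius (q2 / d2) : ℤ) : ℝ) * (X : ℝ))) * hgl
    · ring
  rw [hexp, ← hmain, ← Finset.sum_sub_distrib, Finset.sum_mul_sum]
  refine (Finset.abs_sum_le_sum_abs _ _).trans (Finset.sum_le_sum fun d1 hd1 => ?_)
  rw [← Finset.sum_sub_distrib]
  refine (Finset.abs_sum_le_sum_abs _ _).trans (Finset.sum_le_sum fun d2 hd2 => ?_)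
  rw [← mul_sub, abs_mul, abs_mul]
  have dv1 := Nat.dvd_of_mem_divisors hd1
  have dv2 := Nat.dvd_of_mem_divisors hd2
  have hc := count_set W X n m d1 d2 β (Nat.pos_of_mem_divisors hd1) (Nat.pos_of_mem_divisors hd2)
    (Nat.Coprime.coprime_dvd_left dv1 c1) (Nat.Coprime.coprime_dvd_left dv2 c2)
  have b1 : |e1 d1| ≤ d1 := by
    rw [he1]; simp only [abs_mul, Nat.abs_cast]
    have : |((ArithmeticFunction.moebius (q1 / d1) : ℤ) : ℝ)| ≤ 1 := by
      exact_mod_cast ArithmeticFunction.abs_moebius_le_one (n := q1 / d1)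
    exact mul_le_of_le_one_right (by positivity) this
  have b2 : |e2 d2| ≤ d2 := by
    rw [he2]; simp only [abs_mul, Nat.abs_cast]
    have : |((ArithmeticFunction.moebius (q2 / d2) : ℤ) : ℝ)| ≤ 1 := by
      exact_mod_cast ArithmeticFunction.abs_moebius_le_one (n := q2 / d2)
    exact mul_le_of_le_one_right (by positivity) this
  calc |e1 d1| * |e2 d2| * |N d1 d2 - M d1 d2| ≤ (d1 : ℝ) * d2 * 1 := by
        refine mul_le_mul (mul_le_mul b1 b2 (abs_nonneg _) (by positivity)) hc (abs_nonneg _)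
          (by positivity)
    _ = _ := mul_one _

theorem t_MODC : S_MODC := by
  intro W _ R X n m β hsq hR hX
  classical
  have hv : 0 ≤ vv W ^ 2 := sq_nonneg _
  have hunit : ∀ k s : ℕ, s ∈ cls X β → (IsUnit ((k : ZMod W) + β) ↔ (k + s).Coprime W) := by
    intro k s hs
    have h1 : (s : ZMod W) = β := (mem_filter.1 hs).2
    rw [← h1, ← Nat.cast_add, ZMod.isUnit_iff_coprime]
  by_cases hβ : β ∈ Us (n : ZMod W) (m : ZMod W)
  · rw [if_pos hβ]
    have hβ' : IsUnit ((n : ZMod W) + β) ∧ IsUnit ((m : ZMod W) + β) := by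
      simpa [Us] using hβ
    set Q := (Icc 1 R).filter (fun q => q.Coprime W) with hQ
    set a : ℕ → ℝ := fun q => ((ArithmeticFunction.moebius q : ℤ) : ℝ) / (Nat.totient q : ℝ) with ha
    set I : ℕ → ℕ → ℝ := fun q1 q2 => ∑ s ∈ cls X β, rsum q1 (n + s) * rsum q2 (m + s) with hI
    set J : ℕ → ℕ → ℝ := fun q1 q2 => (X : ℝ) / W * (if q1 = q2 then rsum q1 (dst n m) else 0)
      with hJ
    have hexp : ∑ s ∈ cls X β, md W R (n + s) * md W R (m + s) =
        vv W ^ 2 * ∑ q1 ∈ Q, ∑ q2 ∈ Q, a q1 * a q2 * I q1 q2 := by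
      have h1 : ∀ s ∈ cls X β, md W R (n + s) * md W R (m + s) =
          ∑ q1 ∈ Q, ∑ q2 ∈ Q, vv W ^ 2 * (a q1 * a q2 * (rsum q1 (n + s) * rsum q2 (m + s))) := by
        intro s hs
        unfold md
        rw [if_pos ((hunit n s hs).1 hβ'.1), if_pos ((hunit m s hs).1 hβ'.2)]
        calc _ = vv W ^ 2 * ((∑ q ∈ Q, a q * rsum q (n + s)) * ∑ q ∈ Q, a q * rsum q (m + s)) := by
              ring
          _ = _ := by
              rw [Finset.sum_mul_sum, Finset.mul_sum]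
              refine Finset.sum_congr rfl fun q1 _ => ?_
              rw [Finset.mul_sum]
              refine Finset.sum_congr rfl fun q2 _ => ?_
              ring
      rw [Finset.sum_congr rfl h1, Finset.sum_comm, Finset.mul_sum]
      refine Finset.sum_congr rfl fun q1 _ => ?_
      rw [Finset.sum_comm, Finset.mul_sum]
      refine Finset.sum_congr rfl fun q2 _ => ?_
      rw [← Finset.mul_sum, ← Finset.mul_sum]
    have hmain : (X : ℝ) / W * vv W ^ 2 * SR W R (dst n m) =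
        vv W ^ 2 * ∑ q1 ∈ Q, ∑ q2 ∈ Q, a q1 * a q2 * J q1 q2 := by
      have h1 : ∀ q1 ∈ Q, ∑ q2 ∈ Q, a q1 * a q2 * J q1 q2 =
          (X : ℝ) / W * (((ArithmeticFunction.moebius q1 : ℤ) : ℝ) ^ 2 /
            (Nat.totient q1 : ℝ) ^ 2 * rsum q1 (dst n m)) := by
        intro q1 hq1
        rw [Finset.sum_eq_single q1]
        · simp only [hJ, ha, if_true]
          rw [div_mul_div_comm, ← pow_two, ← pow_two]
          ring
        · intro q2 _ hne
          simp only [hJ]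
          rw [if_neg (fun h => hne h.symm)]
          ring
        · intro h; exact absurd hq1 h
      rw [Finset.sum_congr rfl h1, ← Finset.mul_sum]
      unfold SR
      ring
    rw [hexp, hmain, ← mul_sub, abs_mul, abs_of_nonneg hv, ← Finset.sum_sub_distrib]
    have herr : |∑ q1 ∈ Q, (∑ q2 ∈ Q, a q1 * a q2 * I q1 q2 - ∑ q2 ∈ Q, a q1 * a q2 * J q1 q2)| ≤
        (∑ q ∈ Q, Ec q) * ∑ q ∈ Q, Ec q := by
      rw [Finset.sum_mul_sum]
      refine (Finset.abs_sum_le_sum_abs _ _).trans (Finset.sum_le_sum fun q1 hq1 => ?_)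
      rw [← Finset.sum_sub_distrib]
      refine (Finset.abs_sum_le_sum_abs _ _).trans (Finset.sum_le_sum fun q2 hq2 => ?_)
      rw [← mul_sub, abs_mul, abs_mul]
      have m1 : 0 < q1 ∧ q1.Coprime W := by
        simp only [hQ, mem_filter, mem_Icc] at hq1; exact ⟨by omega, hq1.2⟩
      have m2 : 0 < q2 ∧ q2.Coprime W := by
        simp only [hQ, mem_filter, mem_Icc] at hq2; exact ⟨by omega, hq2.2⟩
      have hin := inner W X n m q1 q2 β m1.1 m2.1 m1.2 m2.2
      calc |a q1| * |a q2| * |I q1 q2 - J q1 q2| ≤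
            |a q1| * |a q2| * ((∑ d ∈ q1.divisors, (d : ℝ)) * ∑ d ∈ q2.divisors, (d : ℝ)) :=
            mul_le_mul_of_nonneg_left hin (by positivity)
        _ = Ec q1 * Ec q2 := by
            simp only [ha, Ec, abs_div, Nat.abs_cast]
            ring
    have hQR : ∑ q ∈ Q, Ec q ≤ (R : ℝ) ^ 2 :=
      (Finset.sum_le_sum_of_subset_of_nonneg (Finset.filter_subset _ _)
        (fun q _ _ => Ec_nonneg q)).trans (sum_Ec R)
    have hQ0 : 0 ≤ ∑ q ∈ Q, Ec q := Finset.sum_nonneg fun q _ => Ec_nonneg q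
    have h4 : (∑ q ∈ Q, Ec q) * ∑ q ∈ Q, Ec q ≤ (R : ℝ) ^ 4 := by
      calc _ ≤ (R : ℝ) ^ 2 * (R : ℝ) ^ 2 := mul_le_mul hQR hQR hQ0 (by positivity)
        _ = _ := by ring
    have h5 : 0 ≤ (R : ℝ) ^ 4 := by positivity
    calc _ ≤ vv W ^ 2 * (R : ℝ) ^ 4 := mul_le_mul_of_nonneg_left (herr.trans h4) hv
      _ ≤ _ := by nlinarith [mul_nonneg hv h5]
  · rw [if_neg hβ, sub_zero]
    have h0 : ∑ s ∈ cls X β, md W R (n + s) * md W R (m + s) = 0 := by
      refine Finset.sum_eq_zero fun s hs => ?_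
      have hnot : ¬ (IsUnit ((n : ZMod W) + β) ∧ IsUnit ((m : ZMod W) + β)) := by
        intro h; exact hβ (by simpa [Us] using h)
      rw [hunit n s hs, hunit m s hs, not_and_or] at hnot
      unfold md
      rcases hnot with h | h
      · rw [if_neg h, zero_mul]
      · rw [if_neg h, mul_zero]
    rw [h0, abs_zero]
    positivity

end Pool.Agent.Q190.SZC

theorem Pool.Agent.Q145.SZ.t_MODC : Pool.Agent.Q145.SZ.S_MODC := Pool.Agent.Q190.SZC.t_MODC
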